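import Mathlib
import Pool.Agent.Helper74.NS.Defs
import Pool.Agent.Helper74.NS.Final

open Pool.Agent.Helper74.NS

namespace Pool.Agent.Results.MP_44bc16_an.NoNormalStructure

/-- Over `𝕜 = ℝ` and over `𝕜 = ℂ` there is a reflexive Banach space, of density character at
most `ℵ₁`, no equivalent norm of which has normal structure. -/
theorem result (𝕜 : Type) [RCLike 𝕜] :
    ∃ (X : Type) (_ : NormedAddCommGroup X) (_ : NormedSpace 𝕜 X), CompleteSpace X ∧
      IsReflexive 𝕜 X ∧ IsSpannedByAlephOne 𝕜 X ∧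
      ∀ N : Seminorm 𝕜 X, IsEquivalentNorm N → ¬ HasNormalStructure N := by
  obtain ⟨e, he⟩ := exists_inj
  obtain ⟨X, i1, i2, hc, hr, v, hd, hv, hF⟩ := exists_space 𝕜 he
  refine ⟨X, i1, i2, hc, hr, ⟨Set.range v, ?_, hd⟩, ?_⟩
  · exact Cardinal.mk_range_le.trans (Cardinal.mk_ord_toType _).le
  · rintro N ⟨a, b, ha, hN⟩ hns
    let i3 : NormedSpace ℝ X := NormedSpace.restrictScalars ℝ 𝕜 X
    have i4 : IsScalarTower ℝ 𝕜 X := ⟨fun r s x => by
      rw [Algebra.smul_def, mul_smul]
      rfl⟩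
    obtain ⟨C, -, h2, h3, h4, h5⟩ := diametral he countable_Iio v hv hF N ha hN
    refine absurd h5 (ne_of_lt (hns C ?_ ?_ h4))
    · obtain ⟨R, hR⟩ := h3.exists_norm_le
      refine ⟨|b| * R, fun x hx => ((hN x).2.trans ?_)⟩
      calc b * ‖x‖ ≤ |b| * ‖x‖ := by
            gcongr
            exact le_abs_self b
        _ ≤ |b| * R := by
            gcongr
            exact hR x hx
    · intro x hx y hy s t hs ht hst
      rw [← RCLike.real_smul_eq_coe_smul, ← RCLike.real_smul_eq_coe_smul]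
      exact h2 hx hy hs ht hst

end Pool.Agent.Results.MP_44bc16_an.NoNormalStructure
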